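import Pool.Agent.Helper92.PW.St

/-!
# Project PW, module DYA: all solutions in a dyadic range
-/

set_option autoImplicit false

namespace Pool.Agent.Helper38.PW

open Finset
open Pool.Agent.Helper92.PW

/-- the greatest common divisor of the coordinates -/
def gg (p : Pt) : ℕ := Int.gcd (Int.gcd p.1 p.2.1 : ℤ) p.2.2

theorem gg_dvd (p : Pt) : (gg p : ℤ) ∣ p.1 ∧ (gg p : ℤ) ∣ p.2.1 ∧ (gg p : ℤ) ∣ p.2.2 := by
  have h1 : (gg p : ℤ) ∣ (Int.gcd p.1 p.2.1 : ℤ) := Int.gcd_dvd_left ..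
  exact ⟨h1.trans (Int.gcd_dvd_left ..), h1.trans (Int.gcd_dvd_right ..), Int.gcd_dvd_right ..⟩

theorem dvd_gg (p : Pt) (e : ℤ) (h1 : e ∣ p.1) (h2 : e ∣ p.2.1) (h3 : e ∣ p.2.2) :
    e ∣ (gg p : ℤ) := Int.dvd_coe_gcd (Int.dvd_coe_gcd h1 h2) h3

theorem th_pos : 0 < th := by
  unfold th
  positivity

/-- the quotient by `d` -/
def qd (d : ℕ) (p : Pt) : Pt := (p.1 / d, p.2.1 / d, p.2.2 / d)

/-- solutions with a fixed greatest common divisor -/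
theorem fiber {k : ℤ} (hk : NC k) {d : ℕ} {C : ℝ} (hC : 0 < C)
    (h : (d : ℤ) ^ 3 ∣ k → 1 ≤ d → ∀ B : ℝ, 1 ≤ B → ∀ T : Finset Pt,
      (∀ p ∈ T, Fm p = k / (d : ℤ) ^ 3 ∧ Prm p ∧ |(p.1 : ℝ)| ≤ |(p.2.2 : ℝ)| ∧
        |(p.2.1 : ℝ)| ≤ |(p.2.2 : ℝ)| ∧ B / 2 < |(p.2.2 : ℝ)| ∧ |(p.2.2 : ℝ)| ≤ B) →
      (T.card : ℝ) ≤ C * B ^ th) (B : ℝ) (hB : 1 ≤ B) (T : Finset Pt)
    (hT : ∀ p ∈ T, gg p = d ∧ Fm p = k ∧ |(p.1 : ℝ)| ≤ |(p.2.2 : ℝ)| ∧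
      |(p.2.1 : ℝ)| ≤ |(p.2.2 : ℝ)| ∧ B / 2 < |(p.2.2 : ℝ)| ∧ |(p.2.2 : ℝ)| ≤ B) :
    (T.card : ℝ) ≤ C * B ^ th := by
  classical
  rcases T.eq_empty_or_nonempty with rfl | ⟨p₀, hp₀⟩
  · simp only [Finset.card_empty, Nat.cast_zero]
    positivity
  have hdiv : ∀ p ∈ T, ∃ a b c : ℤ, p = ((d : ℤ) * a, (d : ℤ) * b, (d : ℤ) * c) := by
    intro p hp
    obtain ⟨⟨a, ha⟩, ⟨b, hb⟩, ⟨c, hc⟩⟩ := gg_dvd p
    rw [(hT p hp).1] at ha hb hc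
    exact ⟨a, b, c, Prod.ext ha (Prod.ext hb hc)⟩
  have hk0 : k ≠ 0 := by
    rintro rfl
    exact hk 0 (by norm_num)
  have hd1 : 1 ≤ d := by
    rcases Nat.eq_zero_or_pos d with h0 | h0
    · exfalso
      obtain ⟨a, b, c, he⟩ := hdiv p₀ hp₀
      have hF := (hT p₀ hp₀).2.1
      rw [he, h0] at hF
      apply hk0
      rw [← hF]
      simp [Fm]
    · exact h0
  have hdz : (d : ℤ) ≠ 0 := by
    have : (0 : ℤ) < d := by exact_mod_cast hd1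
    exact this.ne'
  have hdr : (0 : ℝ) < d := by exact_mod_cast hd1
  have hd1r : (1 : ℝ) ≤ d := by exact_mod_cast hd1
  have hF3 : ∀ a b c : ℤ, Fm ((d : ℤ) * a, (d : ℤ) * b, (d : ℤ) * c)
      = (d : ℤ) ^ 3 * Fm (a, b, c) := by
    intro a b c
    simp only [Fm]
    ring
  have hd3 : (d : ℤ) ^ 3 ∣ k := by
    obtain ⟨a, b, c, he⟩ := hdiv p₀ hp₀
    have hF := (hT p₀ hp₀).2.1
    rw [he, hF3] at hF
    exact ⟨_, hF.symm⟩
  have hq : ∀ a b c : ℤ, qd d ((d : ℤ) * a, (d : ℤ) * b, (d : ℤ) * c) = (a, b, c) := by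
    intro a b c
    simp only [qd, Int.mul_ediv_cancel_left _ hdz]
  have hinj : Set.InjOn (qd d) (T : Set Pt) := by
    intro p hp q hq' hpq
    obtain ⟨a, b, c, he⟩ := hdiv p hp
    obtain ⟨a', b', c', he'⟩ := hdiv q hq'
    rw [he, he', hq, hq] at hpq
    rw [he, he']
    simp only [Prod.mk.injEq] at hpq
    obtain ⟨h1, h2, h3⟩ := hpq
    rw [h1, h2, h3]
  have hcard : (T.image (qd d)).card = T.card := Finset.card_image_of_injOn hinj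
  have habs : ∀ a : ℤ, |(((d : ℤ) * a : ℤ) : ℝ)| = d * |(a : ℝ)| := by
    intro a
    push_cast
    rw [abs_mul, abs_of_pos hdr]
  have key : ∀ p ∈ T.image (qd d), Fm p = k / (d : ℤ) ^ 3 ∧ Prm p ∧
      |(p.1 : ℝ)| ≤ |(p.2.2 : ℝ)| ∧ |(p.2.1 : ℝ)| ≤ |(p.2.2 : ℝ)| ∧
      (B / d) / 2 < |(p.2.2 : ℝ)| ∧ |(p.2.2 : ℝ)| ≤ B / d := by
    intro p hp
    rw [Finset.mem_image] at hp
    obtain ⟨p', hp', rfl⟩ := hp
    obtain ⟨a, b, c, he⟩ := hdiv p' hp'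
    obtain ⟨g1, g2, g3, g4, g5, g6⟩ := hT p' hp'
    rw [he] at g1 g2 g3 g4 g5 g6
    rw [he, hq]
    rw [hF3] at g2
    simp only [habs] at g3 g4 g5 g6
    refine ⟨?_, ?_, ?_, ?_, ?_, ?_⟩
    · rw [← g2, Int.mul_ediv_cancel_left _ (pow_ne_zero 3 hdz)]
    · intro e h1 h2 h3
      have h4 : (d : ℤ) * e ∣ (gg ((d : ℤ) * a, (d : ℤ) * b, (d : ℤ) * c) : ℤ) :=
        dvd_gg _ _ (mul_dvd_mul_left _ h1) (mul_dvd_mul_left _ h2) (mul_dvd_mul_left _ h3)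
      rw [g1] at h4
      have h5 : (d : ℤ) * e ∣ (d : ℤ) * 1 := by rwa [mul_one]
      exact isUnit_of_dvd_one ((mul_dvd_mul_iff_left hdz).1 h5)
    · exact le_of_mul_le_mul_left g3 hdr
    · exact le_of_mul_le_mul_left g4 hdr
    · rw [div_div, div_lt_iff₀ (by positivity)]
      linarith
    · rw [le_div_iff₀ hdr]
      linarith
  have hBd : 1 ≤ B / d := by
    obtain ⟨-, -, -, -, h5, h6⟩ := key _ (Finset.mem_image_of_mem _ hp₀)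
    have h7 : (0 : ℝ) < |((qd d p₀).2.2 : ℝ)| := lt_of_le_of_lt (by positivity) h5
    have h8 : (qd d p₀).2.2 ≠ 0 := by
      intro h9
      rw [h9] at h7
      simp at h7
    have h9 : (1 : ℤ) ≤ |(qd d p₀).2.2| := Int.one_le_abs h8
    have h10 : (1 : ℝ) ≤ |((qd d p₀).2.2 : ℝ)| := by exact_mod_cast h9
    linarith
  have hfin := h hd3 hd1 (B / d) hBd (T.image (qd d)) key
  rw [hcard] at hfin
  refine hfin.trans (mul_le_mul_of_nonneg_left ?_ hC.le)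
  apply Real.rpow_le_rpow (by positivity) _ th_pos.le
  exact div_le_self (by linarith) hd1r

/-- largest coordinate third -/
theorem third (hDYP : StDYP) {k : ℤ} (hk : NC k) : ∃ C : ℝ, 0 < C ∧ ∀ B : ℝ, 1 ≤ B →
    ∀ T : Finset Pt, (∀ p ∈ T, Fm p = k ∧ |(p.1 : ℝ)| ≤ |(p.2.2 : ℝ)| ∧
      |(p.2.1 : ℝ)| ≤ |(p.2.2 : ℝ)| ∧ B / 2 < |(p.2.2 : ℝ)| ∧ |(p.2.2 : ℝ)| ≤ B) →
    (T.card : ℝ) ≤ C * B ^ th := by
  classical
  have hk0 : k ≠ 0 := by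
    rintro rfl
    exact hk 0 (by norm_num)
  have hex : ∀ d : ℕ, ∃ C : ℝ, 0 < C ∧ ((d : ℤ) ^ 3 ∣ k → 1 ≤ d → ∀ B : ℝ, 1 ≤ B →
      ∀ T : Finset Pt, (∀ p ∈ T, Fm p = k / (d : ℤ) ^ 3 ∧ Prm p ∧ |(p.1 : ℝ)| ≤ |(p.2.2 : ℝ)| ∧
        |(p.2.1 : ℝ)| ≤ |(p.2.2 : ℝ)| ∧ B / 2 < |(p.2.2 : ℝ)| ∧ |(p.2.2 : ℝ)| ≤ B) →
      (T.card : ℝ) ≤ C * B ^ th) := by
    intro d
    by_cases hd : (d : ℤ) ^ 3 ∣ k ∧ 1 ≤ d
    · have hNC : NC (k / (d : ℤ) ^ 3) := by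
        intro m hm
        apply hk (d * m)
        rw [mul_pow, hm, Int.mul_ediv_cancel' hd.1]
      obtain ⟨C, hC, h⟩ := hDYP _ hNC
      exact ⟨C, hC, fun _ _ => h⟩
    · exact ⟨1, one_pos, fun h1 h2 => absurd ⟨h1, h2⟩ hd⟩
  choose Cf hCf hCf' using hex
  refine ⟨∑ d ∈ Finset.range (k.natAbs + 1), Cf d,
    Finset.sum_pos (fun d _ => hCf d) ⟨0, by simp⟩, ?_⟩
  intro B hB T hT
  have hmaps : ∀ p ∈ T, gg p ∈ Finset.range (k.natAbs + 1) := by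
    intro p hp
    obtain ⟨h1, h2, h3⟩ := gg_dvd p
    have hF := (hT p hp).1
    have hdk : (gg p : ℤ) ∣ k := by
      rw [← hF]
      unfold Fm
      exact dvd_add (dvd_add (dvd_pow h1 (by norm_num)) (dvd_pow h2 (by norm_num)))
        (dvd_pow h3 (by norm_num))
    have h4 : gg p ≤ k.natAbs := Nat.le_of_dvd (Int.natAbs_pos.2 hk0) (Int.natCast_dvd.1 hdk)
    rw [Finset.mem_range]
    omega
  rw [Finset.card_eq_sum_card_fiberwise hmaps, Nat.cast_sum, Finset.sum_mul]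
  apply Finset.sum_le_sum
  intro d _
  apply fiber hk (hCf d) (hCf' d) B hB
  intro p hp
  rw [Finset.mem_filter] at hp
  exact ⟨hp.2, hT p hp.1⟩

theorem hDYA (hDYP : StDYP) : StDYA := by
  classical
  intro k hk
  obtain ⟨C, hC, h⟩ := third hDYP hk
  refine ⟨3 * C, by positivity, ?_⟩
  intro B hB T hT
  set X : Finset Pt := T.filter fun p => |(p.1 : ℝ)| ≤ |(p.2.2 : ℝ)| ∧ |(p.2.1 : ℝ)| ≤ |(p.2.2 : ℝ)|
    with hX
  set Y : Finset Pt := T.filter fun p => |(p.1 : ℝ)| ≤ |(p.2.1 : ℝ)| ∧ |(p.2.2 : ℝ)| ≤ |(p.2.1 : ℝ)|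
    with hY
  set Z : Finset Pt := T.filter fun p => |(p.2.2 : ℝ)| ≤ |(p.1 : ℝ)| ∧ |(p.2.1 : ℝ)| ≤ |(p.1 : ℝ)|
    with hZ
  have hsub : T ⊆ X ∪ (Y ∪ Z) := by
    intro p hp
    rw [Finset.mem_union, Finset.mem_union, hX, hY, hZ, Finset.mem_filter, Finset.mem_filter,
      Finset.mem_filter]
    rcases le_total |(p.1 : ℝ)| |(p.2.1 : ℝ)| with h1 | h1
    · rcases le_total |(p.2.1 : ℝ)| |(p.2.2 : ℝ)| with h2 | h2
      · exact Or.inl ⟨hp, h1.trans h2, h2⟩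
      · exact Or.inr (Or.inl ⟨hp, h1, h2⟩)
    · rcases le_total |(p.1 : ℝ)| |(p.2.2 : ℝ)| with h2 | h2
      · exact Or.inl ⟨hp, h2, h1.trans h2⟩
      · exact Or.inr (Or.inr ⟨hp, h2, h1⟩)
  have hXc : (X.card : ℝ) ≤ C * B ^ th := by
    apply h B hB
    intro p hp
    rw [hX, Finset.mem_filter] at hp
    obtain ⟨h1, h2, h3⟩ := hT p hp.1
    have hm : max |(p.1 : ℝ)| (max |(p.2.1 : ℝ)| |(p.2.2 : ℝ)|) = |(p.2.2 : ℝ)| := by
      rw [max_eq_right hp.2.2, max_eq_right hp.2.1]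
    rw [hm] at h2 h3
    exact ⟨h1, hp.2.1, hp.2.2, h2, h3⟩
  have hYc : (Y.card : ℝ) ≤ C * B ^ th := by
    have hi : Set.InjOn (fun p : Pt => ((p.1, p.2.2, p.2.1) : Pt)) (Y : Set Pt) := by
      intro p _ q _ hpq
      simp only [Prod.mk.injEq] at hpq
      exact Prod.ext hpq.1 (Prod.ext hpq.2.2 hpq.2.1)
    rw [← Finset.card_image_of_injOn hi]
    apply h B hB
    intro q hq
    rw [Finset.mem_image] at hq
    obtain ⟨p, hp, rfl⟩ := hq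
    rw [hY, Finset.mem_filter] at hp
    obtain ⟨h1, h2, h3⟩ := hT p hp.1
    have hm : max |(p.1 : ℝ)| (max |(p.2.1 : ℝ)| |(p.2.2 : ℝ)|) = |(p.2.1 : ℝ)| := by
      rw [max_eq_left hp.2.2, max_eq_right hp.2.1]
    rw [hm] at h2 h3
    refine ⟨?_, hp.2.1, hp.2.2, h2, h3⟩
    rw [← h1]
    simp only [Fm]
    ring
  have hZc : (Z.card : ℝ) ≤ C * B ^ th := by
    have hi : Set.InjOn (fun p : Pt => ((p.2.2, p.2.1, p.1) : Pt)) (Z : Set Pt) := by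
      intro p _ q _ hpq
      simp only [Prod.mk.injEq] at hpq
      exact Prod.ext hpq.2.2 (Prod.ext hpq.2.1 hpq.1)
    rw [← Finset.card_image_of_injOn hi]
    apply h B hB
    intro q hq
    rw [Finset.mem_image] at hq
    obtain ⟨p, hp, rfl⟩ := hq
    rw [hZ, Finset.mem_filter] at hp
    obtain ⟨h1, h2, h3⟩ := hT p hp.1
    have hm : max |(p.1 : ℝ)| (max |(p.2.1 : ℝ)| |(p.2.2 : ℝ)|) = |(p.1 : ℝ)| :=
      max_eq_left (max_le hp.2.2 hp.2.1)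
    rw [hm] at h2 h3
    refine ⟨?_, hp.2.1, hp.2.2, h2, h3⟩
    rw [← h1]
    simp only [Fm]
    ring
  have hcard : T.card ≤ X.card + (Y.card + Z.card) :=
    (Finset.card_le_card hsub).trans ((Finset.card_union_le _ _).trans
      (Nat.add_le_add_left (Finset.card_union_le _ _) _))
  have hcard' : (T.card : ℝ) ≤ X.card + (Y.card + Z.card) := by exact_mod_cast hcard
  linarith

end Pool.Agent.Helper38.PW
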